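import Pool.Agent.Helper53.PF.St

/-!
# Project PF, module ABA
-/

set_option autoImplicit false

namespace PF.Helper89

open Polynomial PF

section

variable {k : Type} [Field k]

private theorem ev_CX (v y : k[X]) : ev v y (C X) = v := by simp [ev]

private theorem ev_X (v y : k[X]) : ev v y X = y := by simp [ev]

private theorem ev_CC (v y : k[X]) (c : k) : ev v y (C (C c)) = C c := by simp [ev]

private theorem ev_map (v : k[X]) (f : k[X]) : ev v X (f.map C) = f := by
  unfold ev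
  rw [coe_eval₂RingHom, eval₂_map]
  have h : (compRingHom v).comp (C : k →+* k[X]) = C := by
    ext a
    simp
  rw [h, eval₂_C_X]

end

private theorem alg1 {A : Type} [CommRing A] (n s z w P Q Ep Eq : A)
    (h1 : 3 * s * w ^ 2 + s ^ 3 + 4 * z ^ 3 = 4 * n) (hR : P * s + Q * w = 0) :
    (9 * (4 * n - s ^ 3) * P ^ 2 + 6 * s ^ 3 * P * Ep - 2 * Q * (4 * (n - z ^ 3) - s ^ 3) * Eq +
      3 * Q ^ 2 * (4 * (n - z ^ 3) - s ^ 3)) * s =
    (-6 * s ^ 3 * Q * Ep + P * (6 * s ^ 3 * Eq - 36 * n * Q)) * w := by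
  linear_combination (9 * (4 * n - s ^ 3) * P + 6 * s ^ 3 * Ep - 6 * s ^ 2 * w * Eq +
    9 * s ^ 2 * w * Q) * hR + (2 * Q * Eq * s - 3 * Q ^ 2 * s) * h1

private theorem alg2 {A : Type} [CommRing A] (n s z w s' z' V P Q Pv PZ Qv QZ : A)
    (h1 : 3 * s * w ^ 2 + s ^ 3 + 4 * z ^ 3 = 4 * n) (hR : P * s + Q * w = 0)
    (hV : V * w = (4 * n - s ^ 3) * z' + s ^ 2 * s' * z)
    (hD : (3 * s ^ 2 * s') * (3 * P ^ 2 + 6 * s ^ 3 * P * Pv -
        2 * Q * Qv * (4 * (n - z ^ 3) - s ^ 3) + Q ^ 2) +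
      z' * (6 * s ^ 3 * P * PZ - 2 * Q * QZ * (4 * (n - z ^ 3) - s ^ 3) + 12 * z ^ 2 * Q ^ 2) = 0) :
    w * (3 * V * s * (6 * s ^ 3 * P * PZ - 2 * Q * QZ * (4 * (n - z ^ 3) - s ^ 3) +
        12 * z ^ 2 * Q ^ 2) +
      (-6 * s ^ 3 * Q * (3 * (4 * n - s ^ 3) * Pv - z * PZ) +
        P * (6 * s ^ 3 * (3 * (4 * n - s ^ 3) * Qv - z * QZ) - 36 * n * Q)) *
          (3 * s ^ 2 * s')) = 0 := by
  have h2 := alg1 n s z w P Q (3 * (4 * n - s ^ 3) * Pv - z * PZ)
    (3 * (4 * n - s ^ 3) * Qv - z * QZ) h1 hR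
  linear_combination (3 * s * (6 * s ^ 3 * P * PZ - 2 * Q * QZ * (4 * (n - z ^ 3) - s ^ 3) +
    12 * z ^ 2 * Q ^ 2)) * hV + 3 * (4 * n - s ^ 3) * s * hD - (3 * s ^ 2 * s') * h2

theorem holds_ABA : PF.StABA := by
  intro hCHN hTRC hDGA k _ _ n s z w hcrv V V₀ V₁ V₂ hV hVd hV0 hV1 hV2 p q hpq hp hq hR
  obtain ⟨hc1, hc2, hc3⟩ := hCHN k
  have hs3 : (s ^ 3).natDegree = 9 := by rw [natDegree_pow, hcrv.ds]
  have hs0 : s ≠ 0 := by
    rintro rfl
    have := hcrv.ds
    simp at this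
  have hw0 : w ≠ 0 := by
    rintro rfl
    have := hcrv.dw
    simp at this
  have h4n : (C (4 * n) : k[X]) = 4 * C n := by
    rw [C_mul]
    congr 1
  have h1 : 3 * s * w ^ 2 + s ^ 3 + 4 * z ^ 3 = 4 * C n := by rw [← h4n]; exact hcrv.eq
  rw [h4n] at hV
  -- the values
  set P := ev (s ^ 3) z p with hP
  set Q := ev (s ^ 3) z q with hQ
  have hPd := hc3 (s ^ 3) z p
  have hQd := hc3 (s ^ 3) z q
  have hNv : ev (s ^ 3) z (N1 n p q) = 3 * s ^ 3 * P ^ 2 -
      Q ^ 2 * (4 * (C n - z ^ 3) - s ^ 3) := by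
    unfold N1
    simp only [map_sub, map_mul, map_pow, ev_CX, ev_X, ev_CC, map_ofNat, ← hP, ← hQ]
  have hN0 : ev (s ^ 3) z (N1 n p q) = 0 := by
    rw [hNv]
    linear_combination (3 * s * (s * P - w * Q)) * hR + Q ^ 2 * h1
  have hNd : derivative (N1 n p q) = 6 * C X * p * derivative p -
      2 * q * derivative q * (4 * (C (C n) - X ^ 3) - C X) + 12 * X ^ 2 * q ^ 2 := by
    unfold N1
    simp only [derivative_sub, derivative_mul, derivative_pow, derivative_C, derivative_X,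
      derivative_ofNat]
    simp only [map_ofNat, Nat.cast_ofNat]
    ring
  have hNZ : ev (s ^ 3) z (derivative (N1 n p q)) =
      6 * s ^ 3 * P * ev (s ^ 3) z (derivative p) -
        2 * Q * ev (s ^ 3) z (derivative q) * (4 * (C n - z ^ 3) - s ^ 3) +
        12 * z ^ 2 * Q ^ 2 := by
    rw [hNd]
    simp only [map_sub, map_add, map_mul, map_pow, ev_CX, ev_X, ev_CC, map_ofNat, ← hP, ← hQ]
  have hsd : derivative (s ^ 3) = 3 * s ^ 2 * derivative s := by
    rw [derivative_pow]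
    simp only [map_ofNat, Nat.cast_ofNat, Nat.add_one_sub_one]
  have hD : (3 * s ^ 2 * derivative s) * (3 * P ^ 2 + 6 * s ^ 3 * P * ev (s ^ 3) z (dV p) -
        2 * Q * ev (s ^ 3) z (dV q) * (4 * (C n - z ^ 3) - s ^ 3) + Q ^ 2) +
      derivative z * (6 * s ^ 3 * P * ev (s ^ 3) z (derivative p) -
        2 * Q * ev (s ^ 3) z (derivative q) * (4 * (C n - z ^ 3) - s ^ 3) +
        12 * z ^ 2 * Q ^ 2) = 0 := by
    have h2 : derivative (3 * s ^ 3 * P ^ 2 - Q ^ 2 * (4 * (C n - z ^ 3) - s ^ 3)) = 0 := by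
      rw [← hNv, hN0, derivative_zero]
    have h3 : derivative (3 * s ^ 3 * P ^ 2 - Q ^ 2 * (4 * (C n - z ^ 3) - s ^ 3)) =
        3 * derivative (s ^ 3) * P ^ 2 + 6 * s ^ 3 * P * derivative P -
          2 * Q * derivative Q * (4 * (C n - z ^ 3) - s ^ 3) +
          Q ^ 2 * (12 * z ^ 2 * derivative z + derivative (s ^ 3)) := by
      simp only [derivative_sub, derivative_mul, derivative_pow, derivative_C,
        derivative_ofNat]
      simp only [map_ofNat, Nat.cast_ofNat]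
      ring
    rw [h3, hPd, hQd, hsd] at h2
    linear_combination h2
  have hmain := alg2 (C n) s z w (derivative s) (derivative z) V P Q (ev (s ^ 3) z (dV p))
    (ev (s ^ 3) z (derivative p)) (ev (s ^ 3) z (dV q)) (ev (s ^ 3) z (derivative q)) h1 hR hV hD
  have hmain2 := (mul_eq_zero.1 hmain).resolve_left hw0
  -- the polynomials G and H
  obtain ⟨hN1, hN2⟩ := hDGA k n p q
  have hNne := hN1 hpq
  have hNdeg := hN2.2 ⟨hp, hq⟩
  set G : k[X][X] := -(q * (C (-6 * X) * (C (3 * (4 * C n - X)) * dV p - X * derivative p)) +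
    p * (C (6 * X) * (C (3 * (4 * C n - X)) * dV q - X * derivative q) - C (36 * C n) * q))
    with hG
  set H : k[X][X] := (3 * (V₀ * s + V₁ * s ^ 2)).map C + C X * (3 * V₂).map C with hH
  have hXd : ∀ f : k[X][X], (X * derivative f).natDegree ≤ f.natDegree := by
    intro f
    by_cases hf : f.natDegree = 0
    · rw [natDegree_eq_zero] at hf
      obtain ⟨a, rfl⟩ := hf
      simp
    · refine natDegree_mul_le.trans ?_
      have h4 := natDegree_derivative_lt hf
      have h5 : (X : k[X][X]).natDegree ≤ 1 := natDegree_X_le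
      omega
  have hGdeg : G.natDegree ≤ 7 := by
    rw [hG, natDegree_neg]
    refine (natDegree_add_le _ _).trans (max_le ?_ ?_)
    · refine natDegree_mul_le.trans ?_
      have h6 : (C (-6 * X) * (C (3 * (4 * C n - X)) * dV p - X * derivative p) :
          k[X][X]).natDegree ≤ 4 := by
        refine (natDegree_C_mul_le _ _).trans ?_
        refine (natDegree_sub_le _ _).trans (max_le ?_ ?_)
        · exact (natDegree_C_mul_le _ _).trans ((hc2 p).trans hp)
        · exact (hXd p).trans hp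
      omega
    · refine natDegree_mul_le.trans ?_
      have h6 : (C (6 * X) * (C (3 * (4 * C n - X)) * dV q - X * derivative q) -
          C (36 * C n) * q : k[X][X]).natDegree ≤ 3 := by
        refine (natDegree_sub_le _ _).trans (max_le ?_ ?_)
        · refine (natDegree_C_mul_le _ _).trans ?_
          refine (natDegree_sub_le _ _).trans (max_le ?_ ?_)
          · exact (natDegree_C_mul_le _ _).trans ((hc2 q).trans hq)
          · exact (hXd q).trans hq
        · exact (natDegree_C_mul_le _ _).trans hq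
      omega
  have hV0s : (V₀ * s).natDegree ≤ 5 := by
    refine natDegree_mul_le.trans ?_
    rw [hcrv.ds]; omega
  have hV1s : (V₁ * s ^ 2).natDegree ≤ 8 := by
    refine natDegree_mul_le.trans ?_
    rw [natDegree_pow, hcrv.ds]; omega
  have h3C : (3 : k[X]) = C 3 := (map_ofNat C 3).symm
  have hHdeg : H.natDegree ≤ 8 := by
    rw [hH]
    refine (natDegree_add_le _ _).trans (max_le ?_ ?_)
    · refine natDegree_map_le.trans ?_
      rw [h3C]
      refine (natDegree_C_mul_le _ _).trans ?_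
      refine (natDegree_add_le _ _).trans (max_le ?_ hV1s)
      omega
    · refine (natDegree_C_mul_le _ _).trans ?_
      refine natDegree_map_le.trans ?_
      rw [h3C]
      refine (natDegree_C_mul_le _ _).trans ?_
      omega
  have hevG : ev (s ^ 3) z G = -(-6 * s ^ 3 * Q * (3 * (4 * C n - s ^ 3) *
      ev (s ^ 3) z (dV p) - z * ev (s ^ 3) z (derivative p)) +
        P * (6 * s ^ 3 * (3 * (4 * C n - s ^ 3) * ev (s ^ 3) z (dV q) -
          z * ev (s ^ 3) z (derivative q)) - 36 * C n * Q)) := by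
    rw [hG]
    simp only [map_neg, map_sub, map_add, map_mul, map_ofNat, ev_CX, ev_X, ev_CC, ← hP, ← hQ]
    ring
  have hevH : ev (s ^ 3) X H = 3 * V * s := by
    rw [hH, map_add, map_mul, ev_map, ev_map, ev_CX, hVd]
    ring
  have heq : ev (s ^ 3) X H * ev (s ^ 3) z (derivative (N1 n p q)) =
      ev (s ^ 3) z G * derivative (s ^ 3) := by
    rw [hevH, hevG, hNZ, hsd]
    linear_combination hmain2
  have hcop : Nat.Coprime z.natDegree 9 := by
    rw [hcrv.dz]; decide
  obtain ⟨hNc, hfin⟩ := hTRC k 9 (s ^ 3) z (N1 n p q) G H (by norm_num) hs3 hcop hNne hNdeg hN0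
    (by omega) (by omega) heq
  have hG8 : G.coeff (9 - 1) = 0 := coeff_eq_zero_of_natDegree_lt (by omega)
  rw [hG8, mul_zero] at hfin
  have hH8 : H.coeff (9 - 1) = 0 := (mul_eq_zero.1 hfin).resolve_right hNc
  have hH8' : H.coeff 8 = C (3 * (V₁.coeff 2 * s.leadingCoeff ^ 2)) := by
    have e1 : (V₀ * s).coeff 8 = 0 := coeff_eq_zero_of_natDegree_lt (by omega)
    have e2 : (V₂).coeff 8 = 0 := coeff_eq_zero_of_natDegree_lt (by omega)
    have e3 : (V₁ * s ^ 2).coeff (2 + 6) = V₁.coeff 2 * (s ^ 2).coeff 6 :=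
      coeff_mul_add_eq_of_natDegree_le hV1 (by rw [natDegree_pow, hcrv.ds])
    have e4 : (s ^ 2).coeff 6 = s.leadingCoeff ^ 2 := by
      have h7 : (s ^ 2).natDegree = 6 := by rw [natDegree_pow, hcrv.ds]
      rw [← leadingCoeff_pow, leadingCoeff, h7]
    rw [hH, coeff_add, coeff_C_mul, coeff_map, coeff_map, h3C, coeff_C_mul, coeff_C_mul,
      coeff_add, e1, e2, e3, e4, zero_add]
    simp
  have hH8'' : H.coeff 8 = 0 := hH8
  rw [hH8', C_eq_zero] at hH8''
  have h30 : (3 : k) ≠ 0 := by norm_num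
  have h8 := (mul_eq_zero.1 hH8'').resolve_left h30
  exact (mul_eq_zero.1 h8).resolve_right (pow_ne_zero 2 (leadingCoeff_ne_zero.2 hs0))

end PF.Helper89
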